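import Mathlib
import Pool.Agent.V11190.Quasi2

open Set Filter Topology MeasureTheory
open Pool.Agent.V11190.Quasi

namespace Pool.Agent.Results.MP_c5a4a7_gt.NoBound

/-- `V` is the vertex set of a nondegenerate convex polyhedron (the convex hull of `V`). -/
def IsVertexSet (V : Finset E3) : Prop :=
  (interior (convexHull ℝ (V : Set E3))).Nonempty ∧
    ∀ v ∈ V, v ∉ convexHull ℝ ((V : Set E3) \ {v})

/-- The simple closed quasigeodesics of the polyhedral surface with vertex set `V` that pass through
at least one vertex. -/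
def vertexQuasigeodesics (V : Finset E3) : Set (Set E3) :=
  {γ | IsSimpleClosedQuasigeodesic (frontier (convexHull ℝ (V : Set E3))) γ ∧ ∃ v ∈ V, v ∈ γ}

lemma tv_inj : Function.Injective tv := by
  intro i j h
  by_contra hne
  have h1 := bc_tv i i
  have h2 := bc_tv i j
  rw [if_pos rfl] at h1
  rw [if_neg hne, ← h, h1] at h2
  norm_num at h2

/-- the four vertices as a finset -/
noncomputable def VV : Finset E3 := by
  classical exact Finset.univ.image tv

lemma VV_coe : (VV : Set E3) = range tv := by
  classical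
  simp [VV]

lemma VV_card : VV.card = 4 := by
  classical
  rw [VV, Finset.card_image_of_injective _ tv_inj]; simp

lemma VV_vertex : IsVertexSet VV := by
  constructor
  · rw [VV_coe]
    refine ⟨0, Tet_interior fun i => ?_⟩
    fin_cases i <;> simp [bc]
  · intro v hv hmem
    have hv' : v ∈ range tv := by rw [← VV_coe]; exact hv
    obtain ⟨i, rfl⟩ := hv'
    rw [VV_coe] at hmem
    have hconv : Convex ℝ {w : E3 | bc i w ≤ 0} := by
      intro x hx y hy a b ha hb hab
      simp only [Set.mem_ofPred_eq] at *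
      rw [bc_affine i a b hab]
      have := mul_nonneg ha (neg_nonneg.2 hx)
      have := mul_nonneg hb (neg_nonneg.2 hy)
      nlinarith
    have hsub : range tv \ {tv i} ⊆ {w : E3 | bc i w ≤ 0} := by
      rintro _ ⟨⟨j, rfl⟩, hne⟩
      have hij : i ≠ j := by rintro rfl; exact hne rfl
      simp only [Set.mem_ofPred_eq, bc_tv, if_neg hij]; exact le_rfl
    have h1 : bc i (tv i) ≤ 0 := convexHull_min hsub hconv hmem
    rw [bc_tv, if_pos rfl] at h1
    norm_num at h1

lemma val1 {m t : ℝ} : (L m t) 1 = W (m * t) := by simp [L, Phi]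
lemma val0 {m t : ℝ} : (L m t) 0 = W t := by simp [L, Phi]

/-- A short initial piece of the line of slope `2j` meets `range (cur l)` only if `j = l` or
`j = l + 1`. -/
lemma slope_mem {j l : ℕ} {t : ℝ} (ht : 0 < t) (htj : 2 * (j : ℝ) * t ≤ 1)
    (htl : 2 * ((l : ℝ) + 1) * t ≤ 1) (ht1 : t ≤ 1) (h : L (2 * j) t ∈ range (cur l)) :
    j = l ∨ j = l + 1 := by
  have hl0 : (0 : ℝ) ≤ l := by positivity
  have hj0 : (0 : ℝ) ≤ j := by positivity
  obtain ⟨τ, hτ⟩ := h
  have hper : ∀ (n : ℤ) (s : ℝ), cur l (s + 2 * n) = cur l s := by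
    intro n s
    have e : Real.sin (Real.pi * (s + 2 * n)) = Real.sin (Real.pi * s) := by
      have : Real.pi * (s + 2 * n) = Real.pi * s + n * (2 * Real.pi) := by ring
      rw [this, Real.sin_add_int_mul_two_pi]
    have hL : ∀ k : ℕ, L (2 * k) (s + 2 * n) = L (2 * k) s := by
      intro k
      have e := Phi_symm (Or.inl rfl : (1 : ℝ) = 1 ∨ (1 : ℝ) = -1) s (2 * k * s) n (2 * k * n)
      simp only [one_mul] at e
      rw [L, L, ← e]
      push_cast
      ring_nf
    simp only [cur, e, hL]
  have hlow : cur l t = L (2 * l) t := cur_low l ht.le ht1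
  have hneg : cur l (-t) = L (2 * (l + 1 : ℕ)) t ∨ cur l (-t) = L (2 * l) t := by
    simp only [cur]
    split_ifs
    · right; rw [L_neg]
    · left; rw [L_neg]
  have e0 : W τ = W t := by
    have := congrArg (fun v : E3 => v 0) hτ
    simp only [val0] at this
    rw [← this]
    simp only [cur]
    split_ifs <;> rw [val0]
  obtain ⟨n, hn⟩ := W_inj e0
  have hcases : cur l τ = L (2 * l) t ∨ cur l τ = L (2 * (l + 1 : ℕ)) t := by
    rcases hn with hn | hn
    · left; rw [hn, hper, hlow]
    · rw [hn, hper]; exact hneg.symm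
  rw [hτ] at hcases
  have fin : ∀ i : ℕ, 2 * (i : ℝ) * t ≤ 1 → L (2 * j) t = L (2 * i) t → j = i := by
    intro i hi he
    have e1 := congrArg (fun v : E3 => v 1) he
    simp only [val1] at e1
    rw [W01 (by positivity) htj, W01 (by positivity) hi] at e1
    have e2 : (j : ℝ) * t = i * t := by linarith
    have e3 : (j : ℝ) = i := mul_right_cancel₀ ht.ne' e2
    exact_mod_cast e3
  rcases hcases with h | h
  · left; exact fin l (by nlinarith) h
  · right; exact fin (l + 1) (by push_cast; exact htl) h

lemma range_inj : Function.Injective fun k : ℕ => range (cur k) := by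
  intro k l h
  simp only at h
  set t : ℝ := 1 / (2 * ((k : ℝ) + l + 1)) with ht
  have hk0 : (0 : ℝ) ≤ k := by positivity
  have hl0 : (0 : ℝ) ≤ l := by positivity
  have htpos : 0 < t := by positivity
  have b1 : 2 * (k : ℝ) * t ≤ 1 := by
    rw [ht, mul_one_div, div_le_one (by positivity)]; linarith
  have b2 : 2 * (l : ℝ) * t ≤ 1 := by
    rw [ht, mul_one_div, div_le_one (by positivity)]; linarith
  have b3 : 2 * ((k : ℝ) + 1) * t ≤ 1 := by
    rw [ht, mul_one_div, div_le_one (by positivity)]; linarith
  have b4 : 2 * ((l : ℝ) + 1) * t ≤ 1 := by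
    rw [ht, mul_one_div, div_le_one (by positivity)]; linarith
  have b5 : t ≤ 1 := by
    rw [ht, div_le_one (by positivity)]; linarith
  have m1 : L (2 * k) t ∈ range (cur l) := by
    rw [← h]; exact ⟨t, cur_low k htpos.le b5⟩
  have m2 : L (2 * l) t ∈ range (cur k) := by
    rw [h]; exact ⟨t, cur_low l htpos.le b5⟩
  rcases slope_mem htpos b1 b4 b5 m1 with h1 | h1
  · exact h1
  · rcases slope_mem htpos b2 b3 b5 m2 with h2 | h2 <;> omega

/-- **No bound.** There is no function `f` such that every nondegenerate convex polyhedron with `n`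
vertices has at most `f n` simple closed quasigeodesics through at least one vertex: the regular
tetrahedron has infinitely many. -/
theorem result :
    (∃ V : Finset E3, IsVertexSet V ∧ V.card = 4 ∧ (vertexQuasigeodesics V).Infinite) ∧
    ¬ ∃ f : ℕ → ℕ, ∀ V : Finset E3, IsVertexSet V →
      (vertexQuasigeodesics V).encard ≤ f V.card := by
  have hinf : (vertexQuasigeodesics VV).Infinite := by
    apply (infinite_range_of_injective range_inj).mono
    rintro _ ⟨k, rfl⟩
    refine ⟨?_, tv 0, ?_, ?_⟩
    · rw [VV_coe]; exact cur_quasi k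
    · classical
      simp [VV]
    · refine ⟨0, ?_⟩
      rw [cur_low k le_rfl zero_le_one]
      ext i
      fin_cases i
      · simp [L, Phi, tv, W01]
      · simp [L, Phi, tv, W01]
      · simp [L, Phi, tv, W01]
  refine ⟨⟨VV, VV_vertex, VV_card, hinf⟩, ?_⟩
  rintro ⟨f, hf⟩
  have h1 := hf VV VV_vertex
  rw [hinf.encard_eq] at h1
  exact absurd h1 (by simp)

end Pool.Agent.Results.MP_c5a4a7_gt.NoBound
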